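import Pool.Agent.H27.GmpA

/-! Divisibility of `A n` by `n`. -/

namespace Pool.Agent.Results.MP_e5500d_nt.Q1
open Pool.Agent.H27.GmpA

theorem result : ∀ n : ℕ, 0 < n → ∃ z : ℤ, A n = n * z := both.1

end Pool.Agent.Results.MP_e5500d_nt.Q1
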