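import Pool.Agent.H27.GmpA

/-! The value of `A p` modulo `p ^ 2`. -/

namespace Pool.Agent.Results.MP_e5500d_nt.Q2
open Pool.Agent.H27.GmpA

theorem result : ∀ p : ℕ, p.Prime → Odd p → ∃ z : ℤ, A p - 2 * p * (-1) ^ ((p + 1) / 2) = p ^ 2 * z := both.2

end Pool.Agent.Results.MP_e5500d_nt.Q2
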